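import Pool.Agent.helper18.KU.Spec

/-!
# Project ku: L4
-/

set_option autoImplicit false

namespace Pool.Agent.KU

open Finset

noncomputable section

theorem L4_blk {V : Type} [DecidableEq V] {S : Finset V} {w : V → V → ℕ} (hs : Sy w) {a b : V}
    (h : Blk S w a b) : Blk S w b a := by
  rcases h with h | ⟨Q, hQ, ha, hb⟩
  · left
    rw [hs.symm]
    exact h
  · right
    exact ⟨Q, hQ, hb, ha⟩

theorem L4_or {p q : Prop} (h : ¬ (¬ p ∧ ¬ q)) : p ∨ q := by
  by_contra hc
  exact h ⟨fun hp => hc (Or.inl hp), fun hq => hc (Or.inr hq)⟩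

theorem L4_match (hLC2 : LC2_stmt) (hIN2 : IN2_stmt) (V : Type) [DecidableEq V] (S : Finset V)
    (X : V → ℕ) (w : V → V → ℕ) (hC : Cone S X w) (hI : Irr S X w) (h5 : 5 ≤ S.card) (hIH : IH S)
    (v : V) (hv : v ∈ S) (hcr : ∀ Q, Crit S w Q → v ∉ Q) (hX : X v = 1) (a b c d : V)
    (ha : a ∈ S.erase v) (hb : b ∈ S.erase v) (hc : c ∈ S.erase v) (hd : d ∈ S.erase v)
    (hab : a ≠ b) (hcd : c ≠ d)
    (hw : ∀ u ∈ S.erase v, w v u = (if u = a then 1 else 0) + (if u = b then 1 else 0) +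
      (if u = c then 1 else 0) + (if u = d then 1 else 0))
    (n1 : ¬ Blk S w a b) (n2 : ¬ Blk S w c d) : St S X w := by
  have h := hLC2 V S X w hC hI h5 v hv hcr a (mem_of_mem_erase ha) b (mem_of_mem_erase hb)
    c (mem_of_mem_erase hc) d (mem_of_mem_erase hd) (ne_of_mem_erase ha).symm
    (ne_of_mem_erase hb).symm (ne_of_mem_erase hc).symm (ne_of_mem_erase hd).symm hab hcd hX hw n1 n2
  have hcard : (S.erase v).card < S.card := by
    rw [card_erase_of_mem hv]
    omega
  have h2 := hIH (S.erase v) X _ hcard h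
  have h3 := hIN2 V (S.erase v) X w v a b c d (notMem_erase _ _) hC.sy ha hb hc hd hab hcd hX hw h2
  rwa [insert_erase hv] at h3

theorem L4_dbl (hLC2 : LC2_stmt) (hIN2 : IN2_stmt) (hF2 : F2_stmt) (V : Type) [DecidableEq V]
    (S : Finset V) (X : V → ℕ) (w : V → V → ℕ) (hC : Cone S X w) (hI : Irr S X w) (h5 : 5 ≤ S.card)
    (hIH : IH S) (hw2 : ∀ a ∈ S, ∀ b ∈ S, a ≠ b → w a b ≤ 2)
    (v : V) (hv : v ∈ S) (hcr : ∀ Q, Crit S w Q → v ∉ Q) (hX : X v = 1) (a b d : V)
    (ha : a ∈ S.erase v) (hb : b ∈ S.erase v) (hd : d ∈ S.erase v)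
    (hw : ∀ u ∈ S.erase v, w v u = (if u = a then 1 else 0) + (if u = a then 1 else 0) +
      (if u = b then 1 else 0) + (if u = d then 1 else 0)) : St S X w := by
  have hva : v ≠ a := (ne_of_mem_erase ha).symm
  have hvb : v ≠ b := (ne_of_mem_erase hb).symm
  have hvd : v ≠ d := (ne_of_mem_erase hd).symm
  have e1 := hw a ha
  have e2 := hw2 v hv a (mem_of_mem_erase ha) hva
  have hab : a ≠ b := by
    intro h
    subst h
    rw [if_pos rfl] at e1
    omega
  have had : a ≠ d := by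
    intro h
    subst h
    rw [if_pos rfl] at e1
    omega
  have e3 : w v a = 2 := by
    rw [e1, if_pos rfl, if_neg hab, if_neg had]
  have e4 : 1 ≤ w v b := by
    rw [hw b hb, if_pos (rfl : b = b)]
    omega
  have e5 : 1 ≤ w v d := by
    rw [hw d hd, if_pos (rfl : d = d)]
    omega
  have n1 := hF2 V S X w hC hI h5 v hv hcr a (mem_of_mem_erase ha) b (mem_of_mem_erase hb) hva hvb hab e3 e4
  have n2 := hF2 V S X w hC hI h5 v hv hcr a (mem_of_mem_erase ha) d (mem_of_mem_erase hd) hva hvd had e3 e5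
  refine L4_match hLC2 hIN2 V S X w hC hI h5 hIH v hv hcr hX a b a d ha hb ha hd hab had ?_ n1 n2
  intro u hu
  rw [hw u hu]
  ring

theorem L4_star (hEIN : EIN_stmt) (hF4 : F4_stmt) (hL3 : L3_stmt) (V : Type) [DecidableEq V]
    (S : Finset V) (X : V → ℕ) (w : V → V → ℕ) (hC : Cone S X w) (hI : Irr S X w) (h5 : 5 ≤ S.card)
    (hCD : CrDj S w) (hIH : IH S)
    (v : V) (hv : v ∈ S) (hcr : ∀ Q, Crit S w Q → v ∉ Q) (a b c d : V)
    (ha : a ∈ S) (hb : b ∈ S) (hc : c ∈ S) (hd : d ∈ S)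
    (hva : v ≠ a) (hvb : v ≠ b) (hvc : v ≠ c) (hvd : v ≠ d)
    (hab : a ≠ b) (hac : a ≠ c) (had : a ≠ d) (hbc : b ≠ c) (hbd : b ≠ d) (hcd : c ≠ d)
    (wa : w v a = 1) (wb : w v b = 1) (wc : w v c = 1) (wd : w v d = 1)
    (b1 : Blk S w a b) (b2 : Blk S w a c) (b3 : Blk S w a d) : St S X w := by
  obtain ⟨hS, e1, e2, e3, hE, hX⟩ := hF4 V S X w hC hI h5 hCD v hv hcr a ha b hb c hc d hd hva hvb hvc hvd
    hab hac had hbc hbd hcd wa.ge wb.ge wc.ge wd.ge b1 b2 b3
  obtain ⟨-, -, -, k4, k5, k6, -, -, -⟩ := hEIN V w hC.sy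
  have m1 : v ∉ ({a, b, c, d} : Finset V) := by
    simp [hva, hvb, hvc, hvd]
  have m2 : a ∉ ({b, c, d} : Finset V) := by
    simp [hab, hac, had]
  have m3 : b ∉ ({c, d} : Finset V) := by
    simp [hbc, hbd]
  have m4 : c ∉ ({d} : Finset V) := by
    simp [hcd]
  have d1 : dg w {a, b, c, d} v = 4 := by
    unfold dg
    rw [sum_insert m2, sum_insert m3, sum_insert m4, sum_singleton]
    omega
  have d2 : dg w {b, c, d} a = 6 := by
    unfold dg
    rw [sum_insert m3, sum_insert m4, sum_singleton]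
    omega
  have hE' : E w {b, c, d} = 0 := by
    have h1 := k4 {a, b, c, d} v m1
    have h2 := k4 {b, c, d} a m2
    have h3 : E w (insert v {a, b, c, d}) = 10 := by
      rw [← hE, hS]
    omega
  rw [k6 b c d hbc hbd hcd] at hE'
  have z1 : w b c = 0 := by omega
  have z2 : w b d = 0 := by omega
  have z3 : w c d = 0 := by omega
  have s1 : w b v = 1 := by rw [hC.sy.symm]; exact wb
  have s2 : w b a = 2 := by rw [hC.sy.symm]; exact e1
  have s3 : w b b = 0 := hC.sy.loop b
  have dS : dg w S b = 3 := by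
    unfold dg
    rw [hS, sum_insert m1, sum_insert m2, sum_insert m3, sum_insert m4, sum_singleton]
    omega
  have hbQ : ∀ Q, Crit S w Q → b ∉ Q := by
    intro Q hQ hbm
    have hvQ := hcr Q hQ
    obtain ⟨q1, q2, q3⟩ := hQ
    have c2 : (Q.erase b).card = 2 := by
      rw [card_erase_of_mem hbm]
      omega
    obtain ⟨y, z, hyz, hQe⟩ := card_eq_two.1 c2
    have hQ' : Q = {b, y, z} := by
      rw [← insert_erase hbm, hQe]
    have hy : y ∈ Q.erase b := by rw [hQe]; simp
    have hz : z ∈ Q.erase b := by rw [hQe]; simp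
    have hyb : y ≠ b := ne_of_mem_erase hy
    have hzb : z ≠ b := ne_of_mem_erase hz
    have hyv : y ≠ v := fun h => hvQ (h ▸ mem_of_mem_erase hy)
    have hzv : z ≠ v := fun h => hvQ (h ▸ mem_of_mem_erase hz)
    have hyS := q1 (mem_of_mem_erase hy)
    have hzS := q1 (mem_of_mem_erase hz)
    rw [hQ', k6 b y z hyb.symm hzb.symm hyz] at q3
    rw [hS] at hyS hzS
    simp only [mem_insert, mem_singleton] at hyS hzS
    have t1 : w a c = 2 := e2
    have t2 : w c a = 2 := by rw [hC.sy.symm]; exact e2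
    have t3 : w a d = 2 := e3
    have t4 : w d a = 2 := by rw [hC.sy.symm]; exact e3
    have t5 : w d c = 0 := by rw [hC.sy.symm]; exact z3
    rcases hyS with h | h | h | h | h
    · exact hyv h
    · subst h
      rcases hzS with h' | h' | h' | h' | h'
      · exact hzv h'
      · exact hyz h'.symm
      · exact hzb h'
      · subst h'
        omega
      · subst h'
        omega
    · exact hyb h
    · subst h
      rcases hzS with h' | h' | h' | h' | h'
      · exact hzv h'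
      · subst h'
        omega
      · exact hzb h'
      · exact hyz h'.symm
      · subst h'
        omega
    · subst h
      rcases hzS with h' | h' | h' | h' | h'
      · exact hzv h'
      · subst h'
        omega
      · exact hzb h'
      · subst h'
        omega
      · exact hyz h'.symm
  have hXb := hX b hb
  exact hL3 V S X w hC hI h5 hCD hIH b hb hbQ (by omega) dS

theorem L4 (hEIN : EIN_stmt) (hNB : NB_stmt) (hDEG : DEG_stmt) (hLC2 : LC2_stmt) (hIN2 : IN2_stmt)
    (hF2 : F2_stmt) (hF3 : F3_stmt) (hF4 : F4_stmt) (hL3 : L3_stmt) : L4_stmt := by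
  intro V _ S X w hC hI h5 hCD hIH v hv hcr hle hdg
  obtain ⟨hD, -, -, hw2⟩ := hDEG V S X w hC hI (by omega)
  obtain ⟨-, -, -, -, hdg'⟩ := hD v hv
  have hroot := hC.root v hv
  have hX : X v = 1 := by omega
  rw [hdg] at hdg'
  have hsum : ∑ u ∈ S.erase v, w v u = 4 := hdg'.symm
  obtain ⟨a, ha, b, hb, c, hc, d, hd, hw⟩ := (hNB V (S.erase v) (w v)).2.2 hsum
  have haS := mem_of_mem_erase ha
  have hbS := mem_of_mem_erase hb
  have hcS := mem_of_mem_erase hc
  have hdS := mem_of_mem_erase hd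
  have hva : v ≠ a := (ne_of_mem_erase ha).symm
  have hvb : v ≠ b := (ne_of_mem_erase hb).symm
  have hvc : v ≠ c := (ne_of_mem_erase hc).symm
  have hvd : v ≠ d := (ne_of_mem_erase hd).symm
  have dbl := L4_dbl hLC2 hIN2 hF2 V S X w hC hI h5 hIH hw2 v hv hcr hX
  by_cases hab : a = b
  · refine dbl a c d ha hc hd ?_
    intro u hu
    rw [hw u hu, hab]
  by_cases hac : a = c
  · refine dbl a b d ha hb hd ?_
    intro u hu
    rw [hw u hu, ← hac]
    ring
  by_cases had : a = d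
  · refine dbl a b c ha hb hc ?_
    intro u hu
    rw [hw u hu, ← had]
    ring
  by_cases hbc : b = c
  · refine dbl b a d hb ha hd ?_
    intro u hu
    rw [hw u hu, ← hbc]
    ring
  by_cases hbd : b = d
  · refine dbl b a c hb ha hc ?_
    intro u hu
    rw [hw u hu, ← hbd]
    ring
  by_cases hcd : c = d
  · refine dbl c a b hc ha hb ?_
    intro u hu
    rw [hw u hu, ← hcd]
    ring
  have hba : b ≠ a := fun h => hab h.symm
  have hca : c ≠ a := fun h => hac h.symm
  have hda : d ≠ a := fun h => had h.symm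
  have hcb : c ≠ b := fun h => hbc h.symm
  have hdb : d ≠ b := fun h => hbd h.symm
  have hdc : d ≠ c := fun h => hcd h.symm
  have wa : w v a = 1 := by
    rw [hw a ha, if_pos rfl, if_neg hab, if_neg hac, if_neg had]
  have wb : w v b = 1 := by
    rw [hw b hb, if_pos (rfl : b = b), if_neg hba, if_neg hbc, if_neg hbd]
  have wc : w v c = 1 := by
    rw [hw c hc, if_pos (rfl : c = c), if_neg hca, if_neg hcb, if_neg hcd]
  have wd : w v d = 1 := by
    rw [hw d hd, if_pos (rfl : d = d), if_neg hda, if_neg hdb, if_neg hdc]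
  have hsy := hC.sy
  have tri := hF3 V S X w hC hI h5 hCD v hv hcr
  have star := L4_star hEIN hF4 hL3 V S X w hC hI h5 hCD hIH v hv hcr
  have mat := L4_match hLC2 hIN2 V S X w hC hI h5 hIH v hv hcr hX
  by_cases m1 : ¬ Blk S w a b ∧ ¬ Blk S w c d
  · exact mat a b c d ha hb hc hd hab hcd hw m1.1 m1.2
  by_cases m2 : ¬ Blk S w a c ∧ ¬ Blk S w b d
  · refine mat a c b d ha hc hb hd hac hbd ?_ m2.1 m2.2
    intro u hu
    rw [hw u hu]
    ring
  by_cases m3 : ¬ Blk S w a d ∧ ¬ Blk S w b c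
  · refine mat a d b c ha hd hb hc had hbc ?_ m3.1 m3.2
    intro u hu
    rw [hw u hu]
    ring
  have m1' : Blk S w a b ∨ Blk S w c d := L4_or m1
  have m2' : Blk S w a c ∨ Blk S w b d := L4_or m2
  have m3' : Blk S w a d ∨ Blk S w b c := L4_or m3
  rcases m1' with p1 | p1 <;> rcases m2' with p2 | p2 <;> rcases m3' with p3 | p3
  · exact star a b c d haS hbS hcS hdS hva hvb hvc hvd hab hac had hbc hbd hcd wa wb wc wd p1 p2 p3
  · exact absurd ⟨p1, p2, p3⟩ (tri a haS b hbS c hcS hva hvb hvc hab hac hbc wa.ge wb.ge wc.ge)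
  · exact absurd ⟨p1, p3, p2⟩ (tri a haS b hbS d hdS hva hvb hvd hab had hbd wa.ge wb.ge wd.ge)
  · exact star b a c d hbS haS hcS hdS hvb hva hvc hvd hba hbc hbd hac had hcd wb wa wc wd
      (L4_blk hsy p1) p3 p2
  · exact absurd ⟨p2, p3, p1⟩ (tri a haS c hcS d hdS hva hvc hvd hac had hcd wa.ge wc.ge wd.ge)
  · exact star c a b d hcS haS hbS hdS hvc hva hvb hvd hca hcb hcd hab had hbd wc wa wb wd
      (L4_blk hsy p2) (L4_blk hsy p3) p1
  · exact star d a b c hdS haS hbS hcS hvd hva hvb hvc hda hdb hdc hab hac hbc wd wa wb wc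
      (L4_blk hsy p3) (L4_blk hsy p2) (L4_blk hsy p1)
  · exact absurd ⟨p3, p2, p1⟩ (tri b hbS c hcS d hdS hvb hvc hvd hbc hbd hcd wb.ge wc.ge wd.ge)

end

end Pool.Agent.KU
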