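import Pool.Agent.helper18.KU.Spec

/-!
# Project ku: CGR
-/

set_option autoImplicit false

namespace Pool.Agent.KU

open Finset

noncomputable section

open Classical in
theorem CGR_one (V : Type) [Fintype V] [DecidableEq V] (T : Fin 3 → SimpleGraph V)
    (hd : ∀ i j, i ≠ j → Disjoint (T i).edgeSet (T j).edgeSet) (u v : V) :
    (univ.filter fun i => (T i).Adj u v).card ≤ 1 := by
  rw [Finset.card_le_one]
  intro i hi j hj
  rw [mem_filter] at hi hj
  by_contra hij
  exact Set.disjoint_left.mp (hd i j hij) ((SimpleGraph.mem_edgeSet _).2 hi.2)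
    ((SimpleGraph.mem_edgeSet _).2 hj.2)

open Classical in
theorem CGR_cnt (V : Type) [Fintype V] [DecidableEq V] (G : SimpleGraph V) (x : V) (p : V → V)
    (_h1 : ∀ v, v ≠ x → G.Adj v (p v))
    (h2 : ∀ u v, G.Adj u v → (u ≠ x ∧ p u = v) ∨ (v ≠ x ∧ p v = u))
    (h3 : ∀ u v, u ≠ x → v ≠ x → p u = v → p v ≠ u) (F : Finset V) (hF : x ∉ F) :
    ∑ u ∈ F, ∑ v ∈ F, (if G.Adj u v then 1 else 0 : ℕ) = 2 * (∑ u ∈ F, if p u ∈ F then 1 else 0) := by
  have e1 : ∀ u ∈ F, ∀ v ∈ F, (if G.Adj u v then 1 else 0 : ℕ) =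
      (if p u = v then 1 else 0) + (if p v = u then 1 else 0) := by
    intro u hu v hv
    have hux : u ≠ x := fun h => hF (h ▸ hu)
    have hvx : v ≠ x := fun h => hF (h ▸ hv)
    by_cases hA : G.Adj u v
    · rw [if_pos hA]
      rcases h2 u v hA with h | h
      · rw [if_pos h.2, if_neg (h3 u v hux hvx h.2)]
      · rw [if_pos h.2]
        have : ¬ p u = v := h3 v u hvx hux h.2
        rw [if_neg this]
    · rw [if_neg hA]
      have a : ¬ p u = v := by
        intro h
        exact hA (h ▸ _h1 u hux)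
      have b : ¬ p v = u := by
        intro h
        exact hA (SimpleGraph.Adj.symm (h ▸ _h1 v hvx))
      rw [if_neg a, if_neg b]
  have e2 : ∑ u ∈ F, ∑ v ∈ F, (if G.Adj u v then 1 else 0 : ℕ) =
      ∑ u ∈ F, ∑ v ∈ F, ((if p u = v then 1 else 0) + (if p v = u then 1 else 0)) :=
    Finset.sum_congr rfl fun u hu => Finset.sum_congr rfl fun v hv => e1 u hu v hv
  rw [e2]
  simp_rw [Finset.sum_add_distrib]
  have e3 : ∑ u ∈ F, ∑ v ∈ F, (if p u = v then 1 else 0 : ℕ) = ∑ u ∈ F, if p u ∈ F then 1 else 0 :=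
    Finset.sum_congr rfl fun u _ => by rw [Finset.sum_ite_eq]
  have e4 : ∑ u ∈ F, ∑ v ∈ F, (if p v = u then 1 else 0 : ℕ) = ∑ u ∈ F, if p u ∈ F then 1 else 0 := by
    rw [Finset.sum_comm]
    exact e3
  rw [e3, e4]
  ring

open Classical in
theorem CGR (hEIN : EIN_stmt) (hPAR : PAR_stmt) : CGR_stmt := by
  intro V _ _ T x hT hd hx
  have hone := CGR_one V T hd
  refine ⟨?_, hone⟩
  have hsy : Sy (fun u v => (univ.filter fun i => (T i).Adj u v).card) := by
    constructor
    · intro u v
      simp only [SimpleGraph.adj_comm]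
    · intro v
      simp
  choose p h1 h2 h3 using fun i => hPAR V (T i) x (hT i)
  obtain ⟨k1, -, -, -, k5, k6, -, -, -⟩ := hEIN V _ hsy
  -- the number of edges inside `F`
  have hE : ∀ F : Finset V, x ∉ F →
      E (fun u v => (univ.filter fun i => (T i).Adj u v).card) F =
        ∑ i, ∑ u ∈ F, (if p i u ∈ F then 1 else 0) := by
    intro F hF
    have h := k1 F
    have e : ∑ u ∈ F, ∑ v ∈ F, (univ.filter fun i => (T i).Adj u v).card =
        ∑ i, ∑ u ∈ F, ∑ v ∈ F, (if (T i).Adj u v then 1 else 0 : ℕ) := by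
      simp_rw [Finset.card_filter]
      rw [Finset.sum_comm]
      rw [Finset.sum_comm]
      calc ∑ u ∈ F, ∑ v ∈ F, ∑ i, (if (T i).Adj u v then 1 else 0 : ℕ)
          = ∑ u ∈ F, ∑ i, ∑ v ∈ F, (if (T i).Adj u v then 1 else 0 : ℕ) :=
            Finset.sum_congr rfl fun u _ => Finset.sum_comm
        _ = _ := Finset.sum_comm
    have e' : ∑ i, ∑ u ∈ F, ∑ v ∈ F, (if (T i).Adj u v then 1 else 0 : ℕ) =
        ∑ i, 2 * (∑ u ∈ F, if p i u ∈ F then 1 else 0) :=
      Finset.sum_congr rfl fun i _ => CGR_cnt V (T i) x (p i) (h1 i) (h2 i) (h3 i) F hF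
    rw [← Finset.mul_sum] at e'
    have h' : 2 * E (fun u v => (univ.filter fun i => (T i).Adj u v).card) F =
        2 * ∑ i, ∑ u ∈ F, (if p i u ∈ F then 1 else 0) := by
      rw [h, ← e', ← e]
    omega
  have hX : ∀ F : Finset V, x ∉ F → ∑ i, ∑ u ∈ F, (if p i u = x then 1 else 0) = F.card := by
    intro F hF
    rw [Finset.sum_comm]
    have : ∀ u ∈ F, ∑ i, (if p i u = x then 1 else 0 : ℕ) = 1 := by
      intro u hu
      have hux : u ≠ x := fun h => hF (h ▸ hu)
      have e : ∀ i, (if p i u = x then 1 else 0 : ℕ) = if (T i).Adj x u then 1 else 0 := by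
        intro i
        by_cases hA : (T i).Adj x u
        · rw [if_pos hA]
          rcases h2 i x u hA with h | h
          · exact absurd rfl h.1
          · rw [if_pos h.2]
        · rw [if_neg hA]
          have : ¬ p i u = x := by
            intro h
            exact hA (SimpleGraph.Adj.symm (h ▸ h1 i u hux))
          rw [if_neg this]
      rw [Finset.sum_congr rfl fun i _ => e i, ← Finset.card_filter]
      obtain ⟨i, hi⟩ := hx u hux
      have hpos : 0 < (univ.filter fun i => (T i).Adj x u).card :=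
        Finset.card_pos.2 ⟨i, Finset.mem_filter.2 ⟨Finset.mem_univ _, hi⟩⟩
      have := hone x u
      omega
    rw [Finset.sum_congr rfl this]
    simp
  have hsum : ∀ F : Finset V, x ∉ F →
      E (fun u v => (univ.filter fun i => (T i).Adj u v).card) F + F.card =
        ∑ i : Fin 3, ∑ u ∈ F, (if p i u ∈ insert x F then 1 else 0) := by
    intro F hF
    rw [hE F hF, ← hX F hF, ← Finset.sum_add_distrib]
    refine Finset.sum_congr rfl fun i _ => ?_
    rw [← Finset.sum_add_distrib]
    refine Finset.sum_congr rfl fun u _ => ?_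
    by_cases ha : p i u = x
    · rw [if_pos ha, ha, if_neg hF, if_pos (Finset.mem_insert_self _ _)]
    · by_cases hb : p i u ∈ F
      · rw [if_neg ha, if_pos hb, if_pos (Finset.mem_insert_of_mem hb)]
      · rw [if_neg ha, if_neg hb, if_neg]
        rw [Finset.mem_insert]
        rintro (h | h)
        · exact ha h
        · exact hb h
  have hle : ∀ F : Finset V, x ∉ F →
      E (fun u v => (univ.filter fun i => (T i).Adj u v).card) F + F.card ≤ 3 * F.card := by
    intro F hF
    rw [hsum F hF]
    have : ∀ i ∈ (univ : Finset (Fin 3)), ∑ u ∈ F, (if p i u ∈ insert x F then 1 else 0 : ℕ) ≤ F.card := by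
      intro i _
      rw [← Finset.card_filter]
      exact Finset.card_filter_le _ _
    refine (Finset.sum_le_sum this).trans ?_
    simp
  constructor
  · exact hsy
  · intro v _
    exact le_rfl
  · have h := hsum (univ.erase x) (Finset.notMem_erase _ _)
    have e : ∑ i : Fin 3, ∑ u ∈ univ.erase x, (if p i u ∈ insert x (univ.erase x) then 1 else 0 : ℕ) =
        3 * (univ.erase x).card := by
      rw [Finset.insert_erase (Finset.mem_univ x)]
      simp
    rw [e] at h
    unfold f
    simp only [Nat.cast_one, Finset.sum_const, nsmul_eq_mul, mul_one]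
    omega
  · intro F hF
    have hxF : x ∉ F := fun h => Finset.notMem_erase x univ (hF h)
    have h := hle F hxF
    unfold f
    simp only [Nat.cast_one, Finset.sum_const, nsmul_eq_mul, mul_one]
    omega
  · intro F hF h2F
    have hxF : x ∉ F := fun h => Finset.notMem_erase x univ (hF h)
    have h := hle F hxF
    rcases Nat.lt_or_ge F.card 4 with h4 | h4
    · rcases (by omega : F.card = 2 ∨ F.card = 3) with hc | hc
      · obtain ⟨a, b, hab, rfl⟩ := Finset.card_eq_two.1 hc
        rw [k5 a b hab, hc]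
        have := hone a b
        omega
      · obtain ⟨a, b, c, hab, hac, hbc, rfl⟩ := Finset.card_eq_three.1 hc
        rw [k6 a b c hab hac hbc, hc]
        have a1 := hone a b
        have a2 := hone a c
        have a3 := hone b c
        omega
    · omega

end

end Pool.Agent.KU
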